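import Pool.Agent.Lib.MP_e21d7a_al.Proj

set_option autoImplicit false

namespace Pool.Agent.Results.MP_e21d7a_al.ProjAcc

open Pool.Agent.Lib.MP_e21d7a_al.Proj

universe u v

/-- In System A and in System B, the lines spanned by the inversion set of every infinite reduced
word have exactly one accumulation point in the projective space of `V`. -/
theorem result : OneAcc.{u, v} coxA gramA ∧ OneAcc.{u, v} coxB gramB :=
  ⟨oneAcc_A, oneAcc_B⟩

end Pool.Agent.Results.MP_e21d7a_al.ProjAcc
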